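import Pool.Agent.Helper824_mb.Key

/-!
Inner factors of maximal Blaschke products.
-/

namespace Pool.Agent.Results.MP_ce8478_an.InnerMaximal

open Topology Filter Set Complex Metric

/-- `f` is a bounded analytic function on the unit disc -/
def HInf (f : ℂ → ℂ) : Prop :=
  DifferentiableOn ℂ f (ball 0 1) ∧ ∃ K : ℝ, ∀ z ∈ ball (0 : ℂ) 1, ‖f z‖ ≤ K

/-- `c` (a sequence in the disc, given by its multiplicity function) is an `H^∞` critical set -/
def IsCriticalSet (c : ℂ → ℕ) : Prop :=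
  ∃ f : ℂ → ℂ, HInf f ∧ (¬ ∃ a : ℂ, ∀ z ∈ ball (0 : ℂ) 1, f z = a) ∧
    ∀ z ∈ ball (0 : ℂ) 1, analyticOrderAt (deriv f) z = c z

/-- the class of all `f ∈ H^∞` whose derivative vanishes on `c` at least to the multiplicity -/
def InClass (c : ℂ → ℕ) (f : ℂ → ℂ) : Prop :=
  HInf f ∧ ∀ z ∈ ball (0 : ℂ) 1, (c z : ℕ∞) ≤ analyticOrderAt (deriv f) z

/-- `G` solves the extremal problem for `c` -/
def IsExtremal (c : ℂ → ℕ) (G : ℂ → ℂ) : Prop :=
  InClass c G ∧ (∀ z ∈ ball (0 : ℂ) 1, ‖G z‖ ≤ 1) ∧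
    ∀ f : ℂ → ℂ, InClass c f → (∀ z ∈ ball (0 : ℂ) 1, ‖f z‖ ≤ 1) →
      (iteratedDeriv (c 0 + 1) f 0).re ≤ (iteratedDeriv (c 0 + 1) G 0).re

/-- conformal automorphisms of the disc -/
def IsAut (T : ℂ → ℂ) : Prop :=
  DifferentiableOn ℂ T (ball 0 1) ∧ MapsTo T (ball 0 1) (ball 0 1) ∧
    ∃ S : ℂ → ℂ, DifferentiableOn ℂ S (ball 0 1) ∧ MapsTo S (ball 0 1) (ball 0 1) ∧
      (∀ z ∈ ball (0 : ℂ) 1, S (T z) = z) ∧ ∀ z ∈ ball (0 : ℂ) 1, T (S z) = z

/-- `F` is (on the disc) a maximal Blaschke product -/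
def IsMaxBP (F : ℂ → ℂ) : Prop :=
  ∃ c : ℂ → ℕ, IsCriticalSet c ∧ ∃ G : ℂ → ℂ, IsExtremal c G ∧
    ∃ T : ℂ → ℂ, IsAut T ∧ ∀ z ∈ ball (0 : ℂ) 1, F z = T (G z)

open Pool.Agent.H824MB

lemma h0ball : (0 : ℂ) ∈ ball (0 : ℂ) 1 := by simp

lemma HInf.an {f : ℂ → ℂ} (hf : DifferentiableOn ℂ f (ball 0 1)) {z : ℂ}
    (hz : z ∈ ball (0 : ℂ) 1) : AnalyticAt ℂ f z := hf.analyticAt (isOpen_ball.mem_nhds hz)

lemma HInf.const_mul {f : ℂ → ℂ} (hf : HInf f) (a : ℂ) : HInf (fun z => a * f z) := by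
  obtain ⟨h1, K, hK⟩ := hf
  refine ⟨h1.const_mul a, ‖a‖ * K, fun z hz => ?_⟩
  rw [norm_mul]
  exact mul_le_mul_of_nonneg_left (hK z hz) (norm_nonneg a)

lemma deriv_const_mul' {f : ℂ → ℂ} (hf : DifferentiableOn ℂ f (ball 0 1)) (a : ℂ) {z : ℂ}
    (hz : z ∈ ball (0 : ℂ) 1) : deriv (fun z => a * f z) =ᶠ[𝓝 z] (fun _ => a) * deriv f := by
  filter_upwards [isOpen_ball.mem_nhds hz] with w hw
  exact deriv_const_mul a (HInf.an hf hw).differentiableAt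

lemma InClass.const_mul {c : ℂ → ℕ} {f : ℂ → ℂ} (hf : InClass c f) (a : ℂ) :
    InClass c (fun z => a * f z) := by
  refine ⟨hf.1.const_mul a, fun z hz => ?_⟩
  rw [analyticOrderAt_congr (deriv_const_mul' hf.1.1 a hz),
    analyticOrderAt_mul analyticAt_const (HInf.an hf.1.1 hz).deriv]
  exact (hf.2 z hz).trans le_add_self

lemma iter_const_mul {f : ℂ → ℂ} (hf : DifferentiableOn ℂ f (ball 0 1)) (a : ℂ) (n : ℕ) :
    iteratedDeriv n (fun z => a * f z) 0 = a * iteratedDeriv n f 0 := by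
  exact iteratedDeriv_const_mul (n := n) (x := (0 : ℂ)) a
    ((HInf.an hf h0ball).contDiffAt.of_le le_top)

/-- a unimodular factor which makes a number nonnegative -/
lemma exists_unimod (w : ℂ) : ∃ e : ℂ, ‖e‖ = 1 ∧ e * w = (‖w‖ : ℂ) := by
  by_cases hw : w = 0
  · exact ⟨1, by simp, by simp [hw]⟩
  · have hn : (‖w‖ : ℂ) ≠ 0 := by exact_mod_cast norm_ne_zero_iff.mpr hw
    refine ⟨starRingEnd ℂ w / ‖w‖, ?_, ?_⟩
    · rw [norm_div, RCLike.norm_conj, Complex.norm_real, norm_norm,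
        div_self (norm_ne_zero_iff.mpr hw)]
    · rw [div_mul_eq_mul_div, mul_comm, Complex.mul_conj, Complex.normSq_eq_norm_sq]
      push_cast
      field_simp

lemma maps_or_const {g : ℂ → ℂ} (hg : DifferentiableOn ℂ g (ball 0 1))
    (hb : ∀ z ∈ ball (0 : ℂ) 1, ‖g z‖ ≤ 1) :
    MapsTo g (ball 0 1) (ball 0 1) ∨ ∃ a, ∀ z ∈ ball (0 : ℂ) 1, g z = a := by
  by_cases h : ∀ z ∈ ball (0 : ℂ) 1, ‖g z‖ < 1
  · left
    intro z hz
    exact mem_ball_zero_iff.mpr (h z hz)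
  · right
    push Not at h
    obtain ⟨z, hz, hz1⟩ := h
    have heq : ‖g z‖ = 1 := le_antisymm (hb z hz) hz1
    refine ⟨g z, ?_⟩
    have hmax : IsMaxOn (norm ∘ g) (ball 0 1) z := by
      intro w hw
      show ‖g w‖ ≤ ‖g z‖
      rw [heq]
      exact hb w hw
    exact Complex.eqOn_of_isPreconnected_of_isMaxOn_norm (convex_ball (0 : ℂ) 1).isPreconnected
      isOpen_ball hg hz hmax

lemma iter_of_const {g : ℂ → ℂ} {a : ℂ} (h : ∀ z ∈ ball (0 : ℂ) 1, g z = a) (n : ℕ) :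
    iteratedDeriv (n + 1) g 0 = 0 := by
  have h1 : g =ᶠ[𝓝 0] fun _ => a := by
    filter_upwards [isOpen_ball.mem_nhds h0ball] with z hz
    exact h z hz
  rw [h1.iteratedDeriv_eq]
  simp [iteratedDeriv_const]

lemma ext_facts {c : ℂ → ℕ} (hc : IsCriticalSet c) {G : ℂ → ℂ} (hG : IsExtremal c G) :
    0 < (iteratedDeriv (c 0 + 1) G 0).re ∧ MapsTo G (ball 0 1) (ball 0 1) := by
  obtain ⟨f, ⟨hfd, K, hK⟩, -, hford⟩ := hc
  obtain ⟨⟨⟨hGd, -⟩, hGo⟩, hG1, hGe⟩ := hG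
  have hne : iteratedDeriv (c 0 + 1) f 0 ≠ 0 := by
    obtain ⟨a, ha, ha0, hae⟩ :=
      ((HInf.an hfd h0ball).deriv.analyticOrderAt_eq_natCast).mp (hford 0 h0ball)
    simp only [sub_zero, smul_eq_mul] at hae
    rw [lead (c 0) ha hae]
    exact mul_ne_zero (by exact_mod_cast (c 0).factorial_ne_zero) ha0
  obtain ⟨e, he, hef⟩ := exists_unimod (iteratedDeriv (c 0 + 1) f 0)
  have hKpos : 0 < |K| + 1 := by positivity
  have hcl : InClass c (fun z => (e / ((|K| + 1 : ℝ) : ℂ)) * f z) :=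
    InClass.const_mul ⟨⟨hfd, K, hK⟩, fun z hz => (hford z hz).ge⟩ _
  have hle : ∀ z ∈ ball (0 : ℂ) 1, ‖(e / ((|K| + 1 : ℝ) : ℂ)) * f z‖ ≤ 1 := by
    intro z hz
    rw [norm_mul, norm_div, he, Complex.norm_real, Real.norm_of_nonneg hKpos.le,
      one_div, inv_mul_le_one₀ hKpos]
    have := hK z hz
    have h2 := le_abs_self K
    linarith
  have h1 := hGe _ hcl hle
  rw [iter_const_mul hfd] at h1
  have h2 : (e / ((|K| + 1 : ℝ) : ℂ)) * iteratedDeriv (c 0 + 1) f 0 =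
      ((‖iteratedDeriv (c 0 + 1) f 0‖ / (|K| + 1) : ℝ) : ℂ) := by
    rw [div_mul_eq_mul_div, hef]
    push_cast
    rfl
  rw [h2, Complex.ofReal_re] at h1
  have h3 : 0 < ‖iteratedDeriv (c 0 + 1) f 0‖ / (|K| + 1) := by positivity
  have h4 : 0 < (iteratedDeriv (c 0 + 1) G 0).re := lt_of_lt_of_le h3 h1
  refine ⟨h4, ?_⟩
  rcases maps_or_const hGd hG1 with h | ⟨a, h⟩
  · exact h
  · rw [iter_of_const h, Complex.zero_re] at h4
    exact absurd h4 (lt_irrefl _)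

lemma aut_facts {T : ℂ → ℂ} (hT : IsAut T) {w : ℂ} (hw : ‖w‖ < 1) :
    1 - ‖T w‖ ^ 2 ≤ ‖deriv T w‖ * (1 - ‖w‖ ^ 2) := by
  obtain ⟨hTd, hTm, S, hSd, hSm, hST, -⟩ := hT
  have hwb : w ∈ ball (0 : ℂ) 1 := mem_ball_zero_iff.mpr hw
  have h1 : HasDerivAt (fun z => S (T z)) (deriv S (T w) * deriv T w) w :=
    HasDerivAt.comp w (HInf.an hSd (hTm hwb)).differentiableAt.hasDerivAt
      (HInf.an hTd hwb).differentiableAt.hasDerivAt
  have h2 : HasDerivAt (fun z => S (T z)) 1 w := by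
    apply (hasDerivAt_id w).congr_of_eventuallyEq
    filter_upwards [isOpen_ball.mem_nhds hwb] with z hz
    exact hST z hz
  have h3 : deriv S (T w) * deriv T w = 1 := h1.unique h2
  have h4 := schwarzPick hSd hSm (mem_ball_zero_iff.mp (hTm hwb))
  rw [hST w hwb] at h4
  have h5 : ‖deriv S (T w)‖ * ‖deriv T w‖ = 1 := by rw [← norm_mul, h3, norm_one]
  have h6 := mul_le_mul_of_nonneg_left h4 (norm_nonneg (deriv T w))
  calc 1 - ‖T w‖ ^ 2 = (‖deriv S (T w)‖ * ‖deriv T w‖) * (1 - ‖T w‖ ^ 2) := by rw [h5, one_mul]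
    _ = ‖deriv T w‖ * (‖deriv S (T w)‖ * (1 - ‖T w‖ ^ 2)) := by ring
    _ ≤ _ := h6

lemma comp_deriv {T G F : ℂ → ℂ} (hT : DifferentiableOn ℂ T (ball 0 1))
    (hG : DifferentiableOn ℂ G (ball 0 1)) (hGm : MapsTo G (ball 0 1) (ball 0 1))
    (hF : ∀ z ∈ ball (0 : ℂ) 1, F z = T (G z)) {z : ℂ} (hz : z ∈ ball (0 : ℂ) 1) :
    deriv F z = deriv T (G z) * deriv G z := by
  have h1 : HasDerivAt (fun z => T (G z)) (deriv T (G z) * deriv G z) z :=
    HasDerivAt.comp z (HInf.an hT (hGm hz)).differentiableAt.hasDerivAt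
      (HInf.an hG hz).differentiableAt.hasDerivAt
  have h2 : F =ᶠ[𝓝 z] fun z => T (G z) := by
    filter_upwards [isOpen_ball.mem_nhds hz] with w hw
    exact hF w hw
  rw [h2.deriv_eq]
  exact h1.deriv

/-- the affirmative answer -/
theorem main {A B Cc : ℂ → ℂ} (hB : DifferentiableOn ℂ B (ball 0 1))
    (hB1 : ∀ w ∈ ball (0 : ℂ) 1, ‖B w‖ ≤ 1) (hC : DifferentiableOn ℂ Cc (ball 0 1))
    (hCm : MapsTo Cc (ball 0 1) (ball 0 1)) (hABC : ∀ z ∈ ball (0 : ℂ) 1, A z = B (Cc z))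
    (hA : IsMaxBP A) : IsMaxBP Cc := by
  obtain ⟨c, hc, G, hG, T, hT, hAT⟩ := hA
  obtain ⟨hGre, hGm⟩ := ext_facts hc hG
  obtain ⟨⟨⟨hGd, -⟩, hGo⟩, hG1, hGe⟩ := hG
  have hTd := hT.1
  have hTm := hT.2.1
  set N := c 0 with hN
  -- `A` on the disc
  have hAd : DifferentiableOn ℂ A (ball 0 1) := (hTd.comp hGd hGm).congr hAT
  have hAm : MapsTo A (ball 0 1) (ball 0 1) := by
    intro z hz
    rw [hAT z hz]
    exact hTm (hGm hz)
  have hT0 : ∀ z ∈ ball (0 : ℂ) 1, deriv T (G z) ≠ 0 := by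
    intro z hz h0
    have h1 := aut_facts hT (mem_ball_zero_iff.mp (hGm hz))
    rw [h0, norm_zero, zero_mul] at h1
    have h2 := one_sub_pos hTm (mem_ball_zero_iff.mp (hGm hz))
    linarith
  have hTGan : ∀ z ∈ ball (0 : ℂ) 1, AnalyticAt ℂ (fun w => deriv T (G w)) z := fun z hz =>
    ((HInf.an hTd (hGm hz)).deriv.comp (HInf.an hGd hz))
  have hAorder : ∀ z ∈ ball (0 : ℂ) 1, analyticOrderAt (deriv A) z =
      analyticOrderAt (deriv G) z := by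
    intro z hz
    have h1 : deriv A =ᶠ[𝓝 z] (fun w => deriv T (G w)) * deriv G := by
      filter_upwards [isOpen_ball.mem_nhds hz] with w hw
      exact comp_deriv hTd hGd hGm hAT hw
    rw [analyticOrderAt_congr h1, analyticOrderAt_mul (hTGan z hz) (HInf.an hGd hz).deriv,
      (hTGan z hz).analyticOrderAt_eq_zero.mpr (hT0 z hz), zero_add]
  have hGne : iteratedDeriv (N + 1) G 0 ≠ 0 := by
    intro h0
    rw [h0, Complex.zero_re] at hGre
    exact lt_irrefl _ hGre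
  have hGord0 : analyticOrderAt (deriv G) 0 = N := by
    apply le_antisymm _ (hGo 0 h0ball)
    by_contra hlt
    push Not at hlt
    have h1 : ((N + 1 : ℕ) : ℕ∞) ≤ analyticOrderAt (deriv G) 0 := by
      have := Order.add_one_le_of_lt hlt
      exact_mod_cast this
    rw [natCast_le_analyticOrderAt_iff_iteratedDeriv_eq_zero (HInf.an hGd h0ball).deriv] at h1
    have h2 := h1 N (Nat.lt_succ_self N)
    rw [← iteratedDeriv_succ'] at h2
    exact hGne h2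
  have hAord0 : analyticOrderAt (deriv A) 0 = N := by rw [hAorder 0 h0ball, hGord0]
  have hAlead : iteratedDeriv (N + 1) A 0 = deriv T (G 0) * iteratedDeriv (N + 1) G 0 := by
    obtain ⟨b, hb, -, hbe⟩ := ((HInf.an hGd h0ball).deriv.analyticOrderAt_eq_natCast).mp hGord0
    simp only [sub_zero, smul_eq_mul] at hbe
    have h2 : ∀ᶠ z in 𝓝 0, deriv A z = z ^ N * ((fun w => deriv T (G w)) * b) z := by
      filter_upwards [hbe, isOpen_ball.mem_nhds h0ball] with z h3 h4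
      rw [comp_deriv hTd hGd hGm hAT h4, h3]
      simp only [Pi.mul_apply]
      ring
    rw [lead N ((hTGan 0 h0ball).mul hb) h2, lead N hb hbe]
    simp only [Pi.mul_apply]
    ring
  have hAne0 : iteratedDeriv (N + 1) A 0 ≠ 0 := by
    rw [hAlead]
    exact mul_ne_zero (hT0 0 h0ball) hGne
  have hAne : ∃ z ∈ ball (0 : ℂ) 1, deriv A z ≠ 0 := by
    by_contra hcon
    push Not at hcon
    have h1 : ∀ᶠ z in 𝓝 (0 : ℂ), deriv A z = 0 := by
      filter_upwards [isOpen_ball.mem_nhds h0ball] with z hz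
      exact hcon z hz
    rw [analyticOrderAt_eq_top.mpr h1] at hAord0
    exact ENat.top_ne_natCast _ hAord0
  -- the extremal property of `A`
  have hE : ∀ g : ℂ → ℂ, DifferentiableOn ℂ g (ball 0 1) → (∀ z ∈ ball (0 : ℂ) 1, ‖g z‖ ≤ 1) →
      (∀ z ∈ ball (0 : ℂ) 1, analyticOrderAt (deriv A) z ≤ analyticOrderAt (deriv g) z) →
      ‖iteratedDeriv (N + 1) g 0‖ * (1 - ‖A 0‖ ^ 2) ≤ ‖iteratedDeriv (N + 1) A 0‖ := by
    intro g hgd hg1 hgo
    obtain ⟨e, he, heg⟩ := exists_unimod (iteratedDeriv (N + 1) g 0)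
    have hcl : InClass c g := ⟨⟨hgd, 1, hg1⟩, fun z hz => by
      refine (hGo z hz).trans ?_
      rw [← hAorder z hz]
      exact hgo z hz⟩
    have h1 := hGe _ (hcl.const_mul e) (fun z hz => by
      rw [norm_mul, he, one_mul]
      exact hg1 z hz)
    rw [iter_const_mul hgd, heg, Complex.ofReal_re] at h1
    have h2 : ‖iteratedDeriv (N + 1) g 0‖ ≤ ‖iteratedDeriv (N + 1) G 0‖ :=
      h1.trans (Complex.re_le_norm _)
    have h3 := aut_facts hT (mem_ball_zero_iff.mp (hGm h0ball))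
    rw [hAlead, norm_mul, hAT 0 h0ball]
    have h4 : ‖deriv T (G 0)‖ * (1 - ‖G 0‖ ^ 2) ≤ ‖deriv T (G 0)‖ := by
      have h5 : 1 - ‖G 0‖ ^ 2 ≤ 1 := by
        have : 0 ≤ ‖G 0‖ ^ 2 := by positivity
        linarith
      calc ‖deriv T (G 0)‖ * (1 - ‖G 0‖ ^ 2) ≤ ‖deriv T (G 0)‖ * 1 :=
            mul_le_mul_of_nonneg_left h5 (norm_nonneg _)
        _ = _ := mul_one _
    have h6 := one_sub_pos hTm (mem_ball_zero_iff.mp (hGm h0ball))
    calc ‖iteratedDeriv (N + 1) g 0‖ * (1 - ‖T (G 0)‖ ^ 2)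
        ≤ ‖iteratedDeriv (N + 1) G 0‖ * (1 - ‖T (G 0)‖ ^ 2) :=
          mul_le_mul_of_nonneg_right h2 h6.le
      _ ≤ ‖iteratedDeriv (N + 1) G 0‖ * ‖deriv T (G 0)‖ :=
          mul_le_mul_of_nonneg_left (h3.trans h4) (norm_nonneg _)
      _ = _ := mul_comm _ _
  -- `B` maps the disc into itself
  have hBm : MapsTo B (ball 0 1) (ball 0 1) := by
    rcases maps_or_const hB hB1 with h | ⟨a, h⟩
    · exact h
    · exfalso
      have h1 : ∀ z ∈ ball (0 : ℂ) 1, A z = a := fun z hz => by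
        rw [hABC z hz, h _ (hCm hz)]
      exact hAne0 (iter_of_const h1 N)
  have hSP : ∀ z, ‖z‖ < 1 → ‖deriv A z‖ * (1 - ‖Cc z‖ ^ 2) ≤
      ‖deriv Cc z‖ * (1 - ‖A z‖ ^ 2) := by
    intro z hz
    have hzb : z ∈ ball (0 : ℂ) 1 := mem_ball_zero_iff.mpr hz
    have h1 := schwarzPick hB hBm (mem_ball_zero_iff.mp (hCm hzb))
    rw [comp_deriv hB hC hCm hABC hzb, norm_mul, hABC z hzb]
    calc ‖deriv B (Cc z)‖ * ‖deriv Cc z‖ * (1 - ‖Cc z‖ ^ 2)
        = ‖deriv Cc z‖ * (‖deriv B (Cc z)‖ * (1 - ‖Cc z‖ ^ 2)) := by ring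
      _ ≤ _ := mul_le_mul_of_nonneg_left h1 (norm_nonneg _)
  -- the critical set of `C`
  have hC'n : AnalyticOnNhd ℂ (deriv Cc) (ball 0 1) := fun z hz => (HInf.an hC hz).deriv
  have hCne : ∃ z ∈ ball (0 : ℂ) 1, deriv Cc z ≠ 0 := by
    obtain ⟨z, hz, h1⟩ := hAne
    refine ⟨z, hz, fun h2 => h1 ?_⟩
    rw [comp_deriv hB hC hCm hABC hz, h2, mul_zero]
  have hCtop := order_ne_top hC'n hCne
  set d : ℂ → ℕ := fun z => analyticOrderNatAt (deriv Cc) z with hd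
  have hdz : ∀ z ∈ ball (0 : ℂ) 1, analyticOrderAt (deriv Cc) z = (d z : ℕ∞) := fun z hz =>
    (Nat.cast_analyticOrderNatAt (hCtop z hz)).symm
  have hCb : HInf Cc := ⟨hC, 1, fun z hz => (mem_ball_zero_iff.mp (hCm hz)).le⟩
  have hcrit : IsCriticalSet d := by
    refine ⟨Cc, hCb, ?_, hdz⟩
    rintro ⟨a, ha⟩
    obtain ⟨z, hz, h1⟩ := hCne
    apply h1
    have h2 : Cc =ᶠ[𝓝 z] fun _ => a := by
      filter_upwards [isOpen_ball.mem_nhds hz] with w hw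
      exact ha w hw
    rw [h2.deriv_eq]
    simp
  set w₀ := Cc 0 with hw₀
  have hw₀1 : ‖w₀‖ < 1 := mem_ball_zero_iff.mp (hCm h0ball)
  have hpos : 0 < 1 - ‖w₀‖ ^ 2 := one_sub_pos hCm (by simp)
  obtain ⟨e, he, hee⟩ := exists_unimod (iteratedDeriv (d 0 + 1) Cc 0)
  have he0 : e ≠ 0 := by
    rw [← norm_pos_iff, he]; exact one_pos
  -- the new extremal function
  set T₁ : ℂ → ℂ := fun w => e * mob w₀ w with hT₁
  have hT₁d : DifferentiableOn ℂ T₁ (ball 0 1) := (mob_diff hw₀1).const_mul e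
  have hT₁m : MapsTo T₁ (ball 0 1) (ball 0 1) := by
    intro w hw
    rw [mem_ball_zero_iff, hT₁]
    show ‖e * mob w₀ w‖ < 1
    rw [norm_mul, he, one_mul]
    exact mob_norm hw₀1 (mem_ball_zero_iff.mp hw)
  set T₂ : ℂ → ℂ := fun w => mob (-w₀) (e⁻¹ * w) with hT₂
  have hnw₀ : ‖-w₀‖ < 1 := by rwa [norm_neg]
  have hT₂a : MapsTo (fun w : ℂ => e⁻¹ * w) (ball 0 1) (ball 0 1) := by
    intro w hw
    show e⁻¹ * w ∈ ball (0 : ℂ) 1
    rw [mem_ball_zero_iff, norm_mul, norm_inv, he, inv_one, one_mul]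
    exact mem_ball_zero_iff.mp hw
  have hT₂d : DifferentiableOn ℂ T₂ (ball 0 1) :=
    (mob_diff hnw₀).comp (differentiable_id.const_mul e⁻¹).differentiableOn hT₂a
  have hT₂m : MapsTo T₂ (ball 0 1) (ball 0 1) := (mob_maps hnw₀).comp hT₂a
  have h21 : ∀ w ∈ ball (0 : ℂ) 1, T₂ (T₁ w) = w := by
    intro w hw
    show mob (-w₀) (e⁻¹ * (e * mob w₀ w)) = w
    rw [← mul_assoc, inv_mul_cancel₀ he0, one_mul]
    exact mob_inv hw₀1 (mem_ball_zero_iff.mp hw)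
  have h12 : ∀ w ∈ ball (0 : ℂ) 1, T₁ (T₂ w) = w := by
    intro w hw
    show e * mob w₀ (mob (-w₀) (e⁻¹ * w)) = w
    have h3 := mob_inv hnw₀ (mem_ball_zero_iff.mp (hT₂a hw))
    rw [neg_neg] at h3
    rw [h3, ← mul_assoc, mul_inv_cancel₀ he0, one_mul]
  set G' : ℂ → ℂ := fun z => T₁ (Cc z) with hG'
  have hG'd : DifferentiableOn ℂ G' (ball 0 1) := hT₁d.comp hC hCm
  have hG'm : MapsTo G' (ball 0 1) (ball 0 1) := hT₁m.comp hCm
  have hT₁C : ∀ z ∈ ball (0 : ℂ) 1, AnalyticAt ℂ (fun w => deriv T₁ (Cc w)) z := fun z hz =>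
    ((HInf.an hT₁d (hCm hz)).deriv.comp (HInf.an hC hz))
  have hG'o : ∀ z ∈ ball (0 : ℂ) 1, (d z : ℕ∞) ≤ analyticOrderAt (deriv G') z := by
    intro z hz
    have h1 : deriv G' =ᶠ[𝓝 z] (fun w => deriv T₁ (Cc w)) * deriv Cc := by
      filter_upwards [isOpen_ball.mem_nhds hz] with w hw
      exact comp_deriv hT₁d hC hCm (fun _ _ => rfl) hw
    rw [analyticOrderAt_congr h1, analyticOrderAt_mul (hT₁C z hz) (HInf.an hC hz).deriv, ← hdz z hz]
    exact le_add_self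
  obtain ⟨b, hb, -, hbe⟩ :=
    ((HInf.an hC h0ball).deriv.analyticOrderAt_eq_natCast).mp (hdz 0 h0ball)
  simp only [sub_zero, smul_eq_mul] at hbe
  have hClead := lead (d 0) hb hbe
  have hdT₁ : deriv T₁ w₀ = e * ((1 - ‖w₀‖ ^ 2 : ℝ) : ℂ)⁻¹ := by
    have h1 := (mob_hasDerivAt hw₀1 hw₀1).const_mul e
    have h2 : deriv T₁ w₀ = _ := h1.deriv
    rw [h2]
    have h4 : 1 - starRingEnd ℂ w₀ * w₀ = ((1 - ‖w₀‖ ^ 2 : ℝ) : ℂ) := by
      rw [mul_comm, Complex.mul_conj, Complex.normSq_eq_norm_sq]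
      push_cast; ring
    have h5 : ((1 - ‖w₀‖ ^ 2 : ℝ) : ℂ) ≠ 0 := by exact_mod_cast hpos.ne'
    rw [h4]
    congr 1
    field_simp
  have hG'lead : iteratedDeriv (d 0 + 1) G' 0 =
      ((‖iteratedDeriv (d 0 + 1) Cc 0‖ / (1 - ‖w₀‖ ^ 2) : ℝ) : ℂ) := by
    have h2 : ∀ᶠ z in 𝓝 0, deriv G' z = z ^ (d 0) * ((fun w => deriv T₁ (Cc w)) * b) z := by
      filter_upwards [hbe, isOpen_ball.mem_nhds h0ball] with z h3 h4
      rw [comp_deriv hT₁d hC hCm (F := G') (fun _ _ => rfl) h4, h3]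
      simp only [Pi.mul_apply]
      ring
    rw [lead (d 0) ((hT₁C 0 h0ball).mul hb) h2]
    simp only [Pi.mul_apply]
    rw [← hw₀, hdT₁]
    have h3 : ((d 0).factorial : ℂ) * (e * ((1 - ‖w₀‖ ^ 2 : ℝ) : ℂ)⁻¹ * b 0) =
        (e * iteratedDeriv (d 0 + 1) Cc 0) * ((1 - ‖w₀‖ ^ 2 : ℝ) : ℂ)⁻¹ := by
      rw [hClead]; ring
    rw [h3, hee]
    push_cast
    rfl
  refine ⟨d, hcrit, G', ⟨⟨⟨hG'd, 1, fun z hz => (mem_ball_zero_iff.mp (hG'm hz)).le⟩, hG'o⟩,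
    fun z hz => (mem_ball_zero_iff.mp (hG'm hz)).le, ?_⟩, T₂,
    ⟨hT₂d, hT₂m, T₁, hT₁d, hT₁m, h12, h21⟩, fun z hz => (h21 _ (hCm hz)).symm⟩
  intro f hf hf1
  rw [hG'lead, Complex.ofReal_re]
  refine (Complex.re_le_norm _).trans ?_
  rcases maps_or_const hf.1.1 hf1 with hfm | ⟨a, ha⟩
  · obtain ⟨h, hh, hhf⟩ := exists_quot (φ := deriv f) (ψ := deriv Cc)
      (fun z hz => (HInf.an hf.1.1 hz).deriv) hC'n hCtop (fun z hz => by
        rw [hdz z hz]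
        exact hf.2 z hz)
    have hk := key hAd hAm hC hCm hf.1.1 hfm hh hSP
      (fun z hz => hhf z (mem_ball_zero_iff.mpr hz)) hAne hAord0 hE
    have h2 : ∀ᶠ z in 𝓝 0, deriv f z = z ^ (d 0) * (h * b) z := by
      filter_upwards [hbe, isOpen_ball.mem_nhds h0ball] with z h3 h4
      rw [hhf z h4, h3]
      simp only [Pi.mul_apply]
      ring
    have h3 : iteratedDeriv (d 0 + 1) f 0 = h 0 * iteratedDeriv (d 0 + 1) Cc 0 := by
      rw [lead (d 0) ((HInf.an hh h0ball).mul hb) h2, hClead]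
      simp only [Pi.mul_apply]
      ring
    rw [h3, norm_mul, le_div_iff₀ hpos]
    have h4 : ‖h 0‖ * (1 - ‖w₀‖ ^ 2) ≤ 1 := by
      refine hk.trans ?_
      have : 0 ≤ ‖f 0‖ ^ 2 := by positivity
      linarith
    calc ‖h 0‖ * ‖iteratedDeriv (d 0 + 1) Cc 0‖ * (1 - ‖w₀‖ ^ 2)
        = (‖h 0‖ * (1 - ‖w₀‖ ^ 2)) * ‖iteratedDeriv (d 0 + 1) Cc 0‖ := by ring
      _ ≤ 1 * ‖iteratedDeriv (d 0 + 1) Cc 0‖ := mul_le_mul_of_nonneg_right h4 (norm_nonneg _)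
      _ = _ := one_mul _
  · rw [iter_of_const ha, norm_zero]
    positivity

lemma deriv_id' (z : ℂ) : deriv (fun z : ℂ => z) z = 1 := (hasDerivAt_id z).deriv

lemma isMaxBP_id : IsMaxBP (fun z => z) := by
  have hI : HInf (fun z => z) :=
    ⟨differentiableOn_id, 1, fun z hz => (mem_ball_zero_iff.mp hz).le⟩
  refine ⟨fun _ => 0, ⟨fun z => z, hI, ?_, ?_⟩, fun z => z,
    ⟨⟨hI, fun z hz => by simp⟩, fun z hz => (mem_ball_zero_iff.mp hz).le, ?_⟩, fun z => z,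
    ⟨differentiableOn_id, mapsTo_id _, fun z => z, differentiableOn_id, mapsTo_id _,
      fun _ _ => rfl, fun _ _ => rfl⟩, fun _ _ => rfl⟩
  · rintro ⟨a, ha⟩
    have h1 := ha 0 h0ball
    have h2 := ha (1 / 2) (by rw [mem_ball_zero_iff]; norm_num)
    rw [← h1] at h2
    norm_num at h2
  · intro z hz
    rw [Nat.cast_zero, ((HInf.an hI.1 hz).deriv).analyticOrderAt_eq_zero, deriv_id']
    exact one_ne_zero
  · intro f hf hf1
    simp only [zero_add, iteratedDeriv_one, deriv_id', Complex.one_re]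
    refine (Complex.re_le_norm _).trans ?_
    rcases maps_or_const hf.1.1 hf1 with hm | ⟨a, ha⟩
    · have := schwarzPick hf.1.1 hm (z := 0) (by simp)
      have h2 : 0 ≤ ‖f 0‖ ^ 2 := by positivity
      simp at this
      linarith
    · have := iter_of_const ha 0
      rw [zero_add, iteratedDeriv_one] at this
      rw [this]
      simp

lemma not_half : ¬ IsMaxBP (fun z => z / 2) := by
  rintro ⟨c, hc, G, hG, T, hT, hAT⟩
  obtain ⟨-, hGm⟩ := ext_facts hc hG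
  have hGd := hG.1.1.1
  have hder : ∀ z ∈ ball (0 : ℂ) 1, deriv T (G z) * deriv G z = 1 / 2 := by
    intro z hz
    rw [← comp_deriv hT.1 hGd hGm hAT hz]
    exact ((hasDerivAt_id z).div_const 2).deriv
  have hc0 : ∀ z ∈ ball (0 : ℂ) 1, c z = 0 := by
    intro z hz
    have h1 : deriv G z ≠ 0 := by
      intro h0
      have := hder z hz
      rw [h0, mul_zero] at this
      norm_num at this
    have h2 := hG.1.2 z hz
    rw [(HInf.an hGd hz).deriv.analyticOrderAt_eq_zero.mpr h1] at h2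
    simpa using h2
  have hI : HInf (fun z => z) :=
    ⟨differentiableOn_id, 1, fun z hz => (mem_ball_zero_iff.mp hz).le⟩
  have h1 := hG.2.2 _ ⟨hI, fun z hz => by rw [hc0 z hz]; simp⟩
    (fun z hz => (mem_ball_zero_iff.mp hz).le)
  rw [hc0 0 h0ball] at h1
  simp only [zero_add, iteratedDeriv_one, deriv_id', Complex.one_re] at h1
  have h2 : 1 ≤ ‖deriv G 0‖ := h1.trans (Complex.re_le_norm _)
  have h3 := aut_facts hT (mem_ball_zero_iff.mp (hGm h0ball))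
  have h4 : T (G 0) = 0 := by
    have := hAT 0 h0ball
    simpa using this.symm
  rw [h4] at h3
  have h5 : 1 ≤ ‖deriv T (G 0)‖ := by
    have h6 : ‖deriv T (G 0)‖ * (1 - ‖G 0‖ ^ 2) ≤ ‖deriv T (G 0)‖ * 1 := by
      apply mul_le_mul_of_nonneg_left _ (norm_nonneg _)
      have : 0 ≤ ‖G 0‖ ^ 2 := by positivity
      linarith
    simp at h3
    linarith
  have h7 : ‖deriv T (G 0)‖ * ‖deriv G 0‖ = 1 / 2 := by
    rw [← norm_mul, hder 0 h0ball]
    norm_num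
  nlinarith

/-- Remark: without a bound on `B` the conclusion fails trivially, `A z = z`, `B w = 2 w`,
`C z = z / 2`. -/
lemma literal_reading_fails :
    ∃ A B C : ℂ → ℂ, HInf A ∧ HInf B ∧ HInf C ∧ MapsTo C (ball 0 1) (ball 0 1) ∧
      (∀ z ∈ ball (0 : ℂ) 1, A z = B (C z)) ∧ IsMaxBP A ∧ ¬ IsMaxBP C := by
  refine ⟨fun z => z, fun w => 2 * w, fun z => z / 2, ?_, ?_, ?_, ?_, ?_, isMaxBP_id, not_half⟩
  · exact ⟨differentiableOn_id, 1, fun z hz => (mem_ball_zero_iff.mp hz).le⟩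
  · exact HInf.const_mul ⟨differentiableOn_id, 1, fun z hz => (mem_ball_zero_iff.mp hz).le⟩ 2
  · refine ⟨differentiableOn_id.div_const 2, 1, fun z hz => ?_⟩
    have := mem_ball_zero_iff.mp hz
    rw [norm_div]
    norm_num
    linarith
  · intro z hz
    have := mem_ball_zero_iff.mp hz
    rw [mem_ball_zero_iff, norm_div]
    norm_num
    linarith
  · intro z _
    show z = 2 * (z / 2)
    ring

/-- If `A = B ∘ C` is a maximal Blaschke product, where `B` is in the closed unit ball of `H^∞`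
and `C` maps the disc into itself, then the inner factor `C` is a maximal Blaschke product. -/
theorem result (A B C : ℂ → ℂ) (hB : HInf B) (hB1 : ∀ w ∈ ball (0 : ℂ) 1, ‖B w‖ ≤ 1)
    (hC : HInf C) (hCm : MapsTo C (ball 0 1) (ball 0 1))
    (hABC : ∀ z ∈ ball (0 : ℂ) 1, A z = B (C z)) (hA : IsMaxBP A) : IsMaxBP C :=
  main hB.1 hB1 hC.1 hCm hABC hA

end Pool.Agent.Results.MP_ce8478_an.InnerMaximal
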